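import Pool.Agent.W5h52.IE.Unc

/-!
Typical compact group extensions of ergodic interval exchange transformations are ergodic.

Let `T` be an interval exchange transformation of `[0,1)` which is ergodic for Lebesgue measure, and
let `G` be a compact connected second countable Hausdorff group, for instance any compact connected
Lie group, with normalised Haar measure `μ`. For `μ ⊗ ... ⊗ μ`-almost every `(g_1, ..., g_d)` the
skew product `T_φ (x, y) = (T x, φ(x) y)`, `φ = g_j` on the `j`-th exchanged interval, is ergodic for
the product of Lebesgue and Haar measure.

Proof. (1) Two-sided Rauzy induction: starting from `[0,1)` one cuts off, at the right or at the left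
end, the smaller one of the two end tiles. For every point `x_0` outside a countable set one gets a
sequence of intervals around `x_0` whose lengths tend to `0` (by ergodicity of `T`), and infinitely
often no return interval fills more than three quarters of the current interval (its translation
would be constant from then on). The return words are obtained by Nielsen moves, so that the
corresponding elements of `G` are again independent and Haar distributed. (2) If `T_φ` is not ergodic
one gets, by smoothing an invariant set in the fibre direction, a map `u` from `[0,1)` to the
continuous functions on `G` with values in a compact set, nonconstant on a set of positive measure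
and equivariant. At a Lebesgue point `x_0` of `u` the function `u(x_0)` is almost fixed by two
independent Haar distributed elements, on all small balanced intervals; by Fatou's lemma the set of
such `(g_1, ..., g_d)` has measure at most that of the pairs in `G × G` with a common nonconstant
fixed function. (3) Almost every pair in `G × G` generates a dense subgroup (Auerbach, Schreier and
Ulam); this is proved here from scratch: for a closed subgroup `H` of an orthogonal group and a vector
`v` the stabiliser of every vector near `v` is conjugate into the stabiliser of `v` (nearest points in
the orbit are unique), the union of the conjugates of `S × S`, `S` a null closed subgroup, is a null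
set by counting balls, and the regular representation is a sum of finite dimensional ones.
-/

set_option autoImplicit false

open MeasureTheory Set

namespace Pool.Agent.Results.MP_5ca0ff_an.TypicalErgodic

/-- An interval exchange transformation of `[0,1)` on `d` intervals: the positive lengths `len j` of
the intervals `I_j`, placed in `[0,1)` in the order of `j`, and the permutation `perm` giving the
order of the image intervals. -/
structure IET (d : ℕ) where
  len : Fin d → ℝ
  pos : ∀ j, 0 < len j
  sum_len : ∑ j, len j = 1
  perm : Equiv.Perm (Fin d)

variable {d : ℕ} (I : IET d)

/-- The left end point of the interval `I_j`. -/
noncomputable def left (j : Fin d) : ℝ := ∑ i ∈ Finset.univ.filter (fun i => i < j), I.len i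

/-- The left end point of the image of `I_j`: the images are placed in the order given by `perm`. -/
noncomputable def imageLeft (j : Fin d) : ℝ :=
  ∑ i ∈ Finset.univ.filter (fun i => I.perm i < I.perm j), I.len i

/-- The half-open interval `I_j = [left j, left j + len j)`. -/
def piece (j : Fin d) : Set ℝ := Ico (left I j) (left I j + I.len j)

/-- The interval exchange `T`: the interval `I_j` is translated by `imageLeft j - left j` (outside
`[0,1)`, which does not matter, the map is the identity). -/
noncomputable def map (x : ℝ) : ℝ :=
  x + ∑ j, (piece I j).indicator (fun _ => imageLeft I j - left I j) x

/-- The simple function `φ` with value `g j` on `I_j`. -/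
noncomputable def simple {G : Type} [Group G] (g : Fin d → G) (x : ℝ) : G :=
  open Classical in if h : ∃ j, x ∈ piece I j then g h.choose else 1

/-- The skew product `T_φ (x, y) = (T x, φ(x) y)`. -/
noncomputable def skew {G : Type} [Group G] (g : Fin d → G) (z : ℝ × G) : ℝ × G :=
  (map I z.1, simple I g z.1 * z.2)

/-- Lebesgue measure on `[0,1)`. -/
noncomputable def leb : Measure ℝ := volume.restrict (Ico (0 : ℝ) 1)

/-- For every compact connected second countable Hausdorff group `G` (for instance every compact
connected Lie group) and every interval exchange transformation `T` ergodic for Lebesgue measure,
the `G`-extension of `T` by the simple function with values `g_1, ..., g_d` is ergodic for almost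
every `(g_1, ..., g_d)`. -/
theorem result (G : Type) [Group G] [TopologicalSpace G] [IsTopologicalGroup G] [CompactSpace G]
    [T2Space G] [SecondCountableTopology G] [ConnectedSpace G] [MeasurableSpace G] [BorelSpace G]
    (μ : Measure G) [μ.IsHaarMeasure] [IsProbabilityMeasure μ]
    (d : ℕ) (I : IET d) (hI : Ergodic (map I) leb) :
    ∀ᵐ g : Fin d → G ∂(Measure.pi fun _ => μ), Ergodic (skew I g) (leb.prod μ) :=
  Pool.Agent.W5h52.IE.uncond G μ d ⟨I.len, I.pos, I.sum_len, I.perm⟩ hI

end Pool.Agent.Results.MP_5ca0ff_an.TypicalErgodic
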